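import Pool.Agent.Q85.Bmo6

set_option autoImplicit false
open scoped NNReal

namespace Pool.Agent.Results.MP_ea8870_an.BmoXEmbedding

open Pool.Agent.Q85.Bmo

/-- Q1 holds for all normalized families whose quasi-triangle constants are bounded (so for all families of
Banach function spaces), it fails if the constants may depend on the cube, and Q2 fails already for a family of
Banach function spaces. -/
theorem result (n : ℕ) [NeZero n] :
    (∀ X : Family n, Normalized X → (∃ K : ℝ≥0, QuasiConst X K) → BMOToX X → XToBMO X) ∧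
    (∃ X : Family n, Normalized X ∧ BMOToX X ∧ ¬ XToBMO X) ∧
    (∃ X : Family n, Normalized X ∧ QuasiConst X 1 ∧ BMOToX X ∧ ¬ StarToBMO X) :=
  ⟨fun X hX ⟨_, hK⟩ h => positive (Nat.one_le_iff_ne_zero.2 (NeZero.ne n)) X hX hK h,
    ⟨XB n, XB_normalized n, XB_embeds n, XB_not⟩,
    ⟨XC n, XC_normalized n, XC_banach n, XC_embeds n, XC_not n⟩⟩

end Pool.Agent.Results.MP_ea8870_an.BmoXEmbedding
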